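import Pool.Agent.helper70.BND.SpecH

/-!
# Row bh:CVF (MP_376aaf_an): elementary facts on `cv` and `nvh`
-/

set_option autoImplicit false

open scoped Topology
open Finset

namespace Pool.Agent.BND.EX

theorem CVF_le (l : Lv) (w : List (ℕ × ℝ)) : nvh l w ≤ hw l.h w := by
  induction w with
  | nil => simp [nvh]
  | cons a w ih =>
    have e : nvh l (a :: w) = (if a.1 < l.n ∧ a.2 = 0 then 0 else l.h a.1) + nvh l w := by
      unfold nvh
      rw [List.map_cons, List.sum_cons]
    rw [e, hw_cons]
    refine Nat.add_le_add ?_ ih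
    split_ifs
    · exact Nat.zero_le _
    · exact le_rfl

theorem CVF_vw (l : Lv) (hl : IsLv l) (u : List ℕ) (hu : ∀ x ∈ u, x < l.n) :
    ((vw u).flatMap fun a => l.W a.1 false) = u := by
  induction u with
  | nil => rfl
  | cons x u ih =>
    rw [vw_cons, List.flatMap_cons, ih (fun y hy => hu y (List.mem_cons_of_mem _ hy))]
    rw [hl.vtx x (hu x List.mem_cons_self) false]
    rfl

theorem CVF : CVF_stmt := by
  intro l hl
  refine ⟨?_, ?_, CVF_le l, ?_, ?_, ?_, ?_⟩
  · intro u w v
    unfold cv
    rw [List.flatMap_append, List.count_append]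
  · intro u w
    unfold nvh
    rw [List.map_append, List.sum_append]
  · intro u v hu
    unfold cv
    rw [CVF_vw l hl u hu]
  · intro u hu
    unfold nvh
    refine List.sum_eq_zero ?_
    intro x hx
    obtain ⟨a, ha, hax⟩ := List.mem_map.1 hx
    obtain ⟨y, hy, hya⟩ := List.mem_map.1 ha
    have h1 : a.1 < l.n ∧ a.2 = 0 := by
      rw [← hya]
      exact ⟨hu y hy, rfl⟩
    rw [← hax]
    exact if_pos h1
  · intro a v
    unfold cv
    rw [List.flatMap_cons, List.flatMap_nil, List.append_nil]
  · intro J v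
    rfl

end Pool.Agent.BND.EX
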